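import Pool.Agent.CPT.StmtsD

set_option autoImplicit false

/-! Row BRK of the squad CPT: the rank of the derivatives can only become smaller for `ε = 0`. -/

namespace Pool.Agent.CPT.H72

open MvPolynomial

/-- The chain rule. -/
theorem chain {K : Type} [Field K] {n r : ℕ} (f : Fin r → MvPolynomial (Fin n) K)
    (H : MvPolynomial (Fin r) K) (i : Fin n) :
    pderiv i (aeval f H) = ∑ j, aeval f (pderiv j H) * pderiv i (f j) := by
  induction H using MvPolynomial.induction_on with
  | C a =>
    rw [show (aeval f (C a) : MvPolynomial (Fin n) K) = C a from by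
      rw [MvPolynomial.aeval_C]; rfl, pderiv_C]
    symm
    refine Finset.sum_eq_zero fun j _ => ?_
    rw [pderiv_C, map_zero, zero_mul]
  | add p q hp hq =>
    rw [map_add, map_add, hp, hq, ← Finset.sum_add_distrib]
    refine Finset.sum_congr rfl fun j _ => ?_
    rw [map_add, map_add, add_mul]
  | mul_X p k hp =>
    rw [map_mul, Derivation.leibniz, hp, aeval_X]
    have h1 : ∀ j, aeval f (pderiv j (p * X k)) * pderiv i (f j) =
        (if j = k then aeval f p * pderiv i (f j) else 0) +
          f k * (aeval f (pderiv j p) * pderiv i (f j)) := by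
      intro j
      rw [Derivation.leibniz, map_add, pderiv_X]
      by_cases h : j = k
      · subst h
        simp only [Pi.single_eq_same, if_true, smul_eq_mul, map_mul, aeval_X, mul_one]
        ring
      · rw [Pi.single_eq_of_ne (Ne.symm h), if_neg h]
        simp only [smul_eq_mul, mul_zero, map_zero, map_mul, aeval_X]
        ring
    rw [Finset.sum_congr rfl fun j _ => h1 j, Finset.sum_add_distrib, Finset.sum_ite_eq',
      if_pos (Finset.mem_univ k), ← Finset.mul_sum, smul_eq_mul, smul_eq_mul]

/-- Independence at `ε = 0` gives independence over `E[ε]`. -/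
theorem indep_poly {E : Type} [Field E] {n : ℕ} {κ : Type} [Fintype κ]
    (w : κ → MvPolynomial (Fin n) (Polynomial E))
    (h : LinearIndependent E fun k => at0 (w k)) (N : ℕ) :
    ∀ c : κ → Polynomial E, ∑ k, C (c k) * w k = 0 → ∀ k, (c k).coeff N = 0 := by
  have h0 : ∀ c : κ → Polynomial E, ∑ k, C (c k) * w k = 0 → ∀ k, (c k).coeff 0 = 0 := by
    intro c hc
    have h1 : ∑ k, (c k).coeff 0 • at0 (w k) = 0 := by
      have h2 := congrArg (MvPolynomial.map (Polynomial.evalRingHom (0 : E))) hc
      rw [map_zero, map_sum] at h2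
      rw [← h2]
      refine Finset.sum_congr rfl fun k _ => ?_
      rw [map_mul, map_C, Polynomial.coe_evalRingHom, ← Polynomial.coeff_zero_eq_eval_zero,
        MvPolynomial.smul_eq_C_mul]
      rfl
    exact Fintype.linearIndependent_iff.1 h _ h1
  induction N with
  | zero => exact h0
  | succ N ih =>
    intro c hc k
    have h1 : ∀ k, c k = Polynomial.X * (c k).divX := by
      intro k
      have h2 := Polynomial.X_mul_divX_add (c k)
      rw [h0 c hc k, map_zero, add_zero] at h2
      exact h2.symm
    have h2 : ∑ k, C ((c k).divX) * w k = 0 := by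
      have h3 : (C (Polynomial.X : Polynomial E) : MvPolynomial (Fin n) (Polynomial E)) *
          ∑ k, C ((c k).divX) * w k = 0 := by
        rw [← hc, Finset.mul_sum]
        refine Finset.sum_congr rfl fun k _ => ?_
        rw [← mul_assoc, ← map_mul, ← h1 k]
      rcases mul_eq_zero.1 h3 with h4 | h4
      · exact absurd (C_eq_zero.1 h4) Polynomial.X_ne_zero
      · exact h4
    have h3 := ih _ h2 k
    rwa [Polynomial.coeff_divX] at h3

/-- Independence at `ε = 0` gives independence over `E(ε)`. -/
theorem indep_frac {E : Type} [Field E] {n : ℕ} {κ : Type} [Fintype κ]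
    (w : κ → MvPolynomial (Fin n) (Polynomial E))
    (h : LinearIndependent E fun k => at0 (w k)) :
    LinearIndependent (EE E) fun k => gen1 (w k) := by
  rw [← LinearIndependent.iff_fractionRing (Polynomial E) (EE E), Fintype.linearIndependent_iff]
  intro c hc k
  have h1 : ∑ k, C (c k) * w k = 0 := by
    apply MvPolynomial.map_injective (algebraMap (Polynomial E) (EE E))
      (IsFractionRing.injective (Polynomial E) (EE E))
    rw [map_zero, map_sum, ← hc]
    refine Finset.sum_congr rfl fun k _ => ?_
    rw [map_mul, map_C, ← algebraMap_smul (EE E) (c k) (gen1 (w k)), MvPolynomial.smul_eq_C_mul]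
    rfl
  ext N
  exact indep_poly w h N c h1 k

/-- Row BRK. -/
theorem brk : BrkStmt := by
  intro E _ n r G A H hG
  obtain ⟨κ, a, ha, hs, hl⟩ := exists_linearIndependent' E (fun i => pderiv i (at0 G))
  have hκ : Fintype κ := Fintype.ofInjective a ha
  rw [← hs, finrank_span_eq_card hl]
  have e1 : ((fun i => pderiv i (at0 G)) ∘ a) = fun k => at0 (pderiv (a k) G) := by
    funext k
    exact pderiv_map
  have h1 : LinearIndependent (EE E) fun k => gen1 (pderiv (a k) G) :=
    indep_frac _ (by rw [← e1]; exact hl)
  have h2 : Set.range (fun k => gen1 (pderiv (a k) G)) ≤ Submodule.span (EE E)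
      (Set.range fun j : Fin r => aeval (fun j => ∑ i, C (A j i) * X i) (pderiv j H)) := by
    rintro _ ⟨k, rfl⟩
    have h3 : gen1 (pderiv (a k) G) = pderiv (a k) (gen1 G) := pderiv_map.symm
    show gen1 (pderiv (a k) G) ∈ _
    rw [h3, hG, chain]
    refine Submodule.sum_mem _ fun j _ => ?_
    have h4 : pderiv (a k) (∑ i, C (A j i) * X i : MvPolynomial (Fin n) (EE E)) =
        C (A j (a k)) := by
      rw [map_sum, Finset.sum_eq_single (a k)]
      · rw [pderiv_C_mul, pderiv_X_self, mul_one]
      · intro i _ hi
        rw [pderiv_C_mul, pderiv_X_of_ne hi, mul_zero]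
      · intro h; exact absurd (Finset.mem_univ _) h
    rw [h4, mul_comm, ← MvPolynomial.smul_eq_C_mul]
    exact Submodule.smul_mem _ _ (Submodule.subset_span ⟨j, rfl⟩)
  classical
  have h5 := linearIndependent_le_span_aux' _ h1 _ h2
  refine h5.trans ?_
  have h6 := Fintype.card_range_le (fun j : Fin r =>
    (aeval (fun j => ∑ i, C (A j i) * X i) (pderiv j H) : MvPolynomial (Fin n) (EE E)))
  simpa using h6

end Pool.Agent.CPT.H72
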