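import Pool.Agent.CPT.StmtsB

set_option autoImplicit false

/-! Row TRD of the squad CPT: `K = E(x_0, ..., x_n)` is finite over `κ(x_0)`, where `κ` is the field
of rational functions in `n` variables. -/

namespace Pool.Agent.CPT.H72

open Polynomial

/-- The transcendence degree of the field of rational functions. -/
theorem trdeg_KK (E : Type) [Field E] (n : ℕ) : Algebra.trdeg E (KK n E) = n := by
  have h1 : Algebra.trdeg (MvPolynomial (Fin n) E) (KK n E) = 0 := by
    have : Algebra.IsAlgebraic (MvPolynomial (Fin n) E) (KK n E) :=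
      IsLocalization.isAlgebraic _ (nonZeroDivisors (MvPolynomial (Fin n) E))
    exact trdeg_eq_zero
  have h2 : Algebra.trdeg E (MvPolynomial (Fin n) E) = n := by
    rw [MvPolynomial.trdeg_of_isDomain]; simp
  have h3 := trdeg_add_eq E (MvPolynomial (Fin n) E) (A := KK n E)
  rw [h1, h2, add_zero] at h3
  exact h3.symm

/-- The transcendence degree of `κ(X)`. -/
theorem trdeg_Q (E : Type) [Field E] (n : ℕ) :
    Algebra.trdeg E (FractionRing (KK n E)[X]) = (n : Cardinal) + 1 := by
  have h1 : Algebra.trdeg (KK n E)[X] (FractionRing (KK n E)[X]) = 0 := by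
    have : Algebra.IsAlgebraic (KK n E)[X] (FractionRing (KK n E)[X]) :=
      IsLocalization.isAlgebraic _ (nonZeroDivisors (KK n E)[X])
    exact trdeg_eq_zero
  have h2 : Algebra.trdeg (KK n E) (KK n E)[X] = 1 := Polynomial.trdeg_of_isDomain
  have h3 := trdeg_add_eq E (KK n E) (A := (KK n E)[X])
  rw [trdeg_KK, h2] at h3
  have h4 := trdeg_add_eq E (KK n E)[X] (A := FractionRing (KK n E)[X])
  rw [h1, add_zero, ← h3] at h4
  exact h4.symm

/-- Row TRD. -/
theorem trd : TrdStmt := by
  intro E _ n _ _ _ h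
  have hs : IsScalarTower E (FractionRing (KK n E)[X]) (KK (n + 1) E) := by
    refine IsScalarTower.of_algebraMap_eq fun a => ?_
    rw [IsScalarTower.algebraMap_apply E (KK n E)[X] (FractionRing (KK n E)[X]),
      ← IsScalarTower.algebraMap_apply (KK n E)[X] (FractionRing (KK n E)[X]) (KK (n + 1) E),
      ← h a]
    rfl
  have h1 : Algebra.EssFiniteType E (KK (n + 1) E) := inferInstance
  have h2 : Algebra.EssFiniteType (FractionRing (KK n E)[X]) (KK (n + 1) E) :=
    Algebra.EssFiniteType.of_comp E (FractionRing (KK n E)[X]) (KK (n + 1) E)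
  have hf : FaithfulSMul (FractionRing (KK n E)[X]) (KK (n + 1) E) :=
    (faithfulSMul_iff_algebraMap_injective _ _).2
      (algebraMap (FractionRing (KK n E)[X]) (KK (n + 1) E)).injective
  have h3 := trdeg_add_eq E (FractionRing (KK n E)[X]) (A := KK (n + 1) E)
  rw [trdeg_Q, trdeg_KK] at h3
  have h4 : Algebra.trdeg (FractionRing (KK n E)[X]) (KK (n + 1) E) = 0 := by
    have h5 : ((n : Cardinal) + 1) +
        Algebra.trdeg (FractionRing (KK n E)[X]) (KK (n + 1) E) = ((n : Cardinal) + 1) + 0 := by
      rw [h3, add_zero]; push_cast; rfl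
    refine Cardinal.eq_of_add_eq_add_left h5 ?_
    exact_mod_cast Cardinal.natCast_lt_aleph0 (n := n + 1)
  have h5 : Algebra.IsAlgebraic (FractionRing (KK n E)[X]) (KK (n + 1) E) := by
    exact trdeg_eq_zero_iff.1 h4
  exact Algebra.finite_of_essFiniteType_of_isAlgebraic

end Pool.Agent.CPT.H72
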